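import Pool.Agent.H.MP_ad4c49_an.Main

namespace Pool.Agent.Results.MP_ad4c49_an.Reflexive

open Pool.Agent.H.MP_ad4c49_an

def KerPos (X : Type) [NormedAddCommGroup X] [NormedSpace ℝ X] : Prop :=
  ∀ Y : Submodule ℝ X, IsClosed (Y : Set X) → ∃ T : X →L[ℝ] X, LinearMap.ker T.toLinearMap = Y

theorem result : ∃ (X : Type) (_ : NormedAddCommGroup X) (_ : NormedSpace ℝ X) (_ : CompleteSpace X),
    Function.Surjective (NormedSpace.inclusionInDoubleDual ℝ X) ∧ ¬ KerPos X ∧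
      KerPos (StrongDual ℝ X) := by
  refine ⟨X, inferInstance, inferInstance, inferInstance, refl, fun h => ?_, pos⟩
  obtain ⟨Y, h1, h2⟩ := neg
  obtain ⟨T, hT⟩ := h Y h1
  exact h2 T hT

end Pool.Agent.Results.MP_ad4c49_an.Reflexive
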